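import Pool.Agent.Lib.MP_ab8df0_nt.A.Twr

/-! Square classes with even valuation outside 10. -/

namespace Pool.Agent.Lib.MP_ab8df0_nt.A.Q5b

open Pool.Agent.Lib.MP_ab8df0_nt.A

/-- Lower coefficients of the polynomial. -/
def fl : List ℤ := [-4, 5, 0, -5, 0]

/-- The modulus. -/
def m : ℕ := nat_lit 0x175b0d4cd4969b7a1e87eef52c7

/-- The roots modulo the modulus. -/
def ρ : List ℕ := [nat_lit 0x158a2d44eb0ab7b4ed139f23fa5, nat_lit 0x1688b41f2851e5c1555a9b8aeda, nat_lit 0xb853f4740b6e61b7c229cdc579, nat_lit 0x1c687c9b62799cfd23a34b5fe5, nat_lit 0xcb27f717388b50ccaccc09e478]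

theorem a0 : CovA fl 10 41 m 3 ρ 0 (0 + 42) := covA _ _ _ _ _ _ _ _
  [(0, []),
  (0, [⟨[1], 1, 1, [1], [-1, 1]⟩, ⟨[1, 1], 2, 2, [2, 2], [-1, -1, 1]⟩]),
  (0, [⟨[3], 1, 1, [1], [-2, 0, 1]⟩, ⟨[1, 2, 3, 4], 1, 2, [5, 6, 2, 2], []⟩]),
  (3, []),
  (0, [⟨[4, 6, 0, 5, 0], 1, 2, [7, 0, 7, 4], []⟩]),
  (0, [⟨[9], 1, 1, [1], [-3, 0, 1]⟩, ⟨[1, 5, 2, 4], 1, 2, [5, 4, 11, 5], []⟩]),
  (0, [⟨[3], 1, 1, [1], [-1, -3, 0, 1]⟩, ⟨[10, 5, 13, 14], 1, 2, [1, 14, 1, 4], []⟩]),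
  (0, [⟨[4, 14, 0, 5, 0], 1, 2, [11, 2, 17, 2, 8], []⟩]),
  (3, []),
  (0, [⟨[14], 1, 1, [1], [1, -3, -1, 1]⟩, ⟨[3, 17, 16, 9], 1, 2, [16, 0, 9, 18], []⟩]),
  (3, []),
  (0, [⟨[4, 24, 0, 5, 0], 1, 2, [13, 1, 19, 15, 10], []⟩]),
  (0, [⟨[10], 1, 1, [1], [1, -4, 0, 1]⟩, ⟨[8, 27], 1, 2, [18, 9], []⟩, ⟨[14, 25], 1, 2, [6, 2], []⟩]),
  (3, []),
  (0, [⟨[20], 1, 1, [1], [2, 2, -4, -1, 1]⟩, ⟨[22, 18, 12, 17], 1, 2, [28, 12, 27, 12], []⟩]),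
  (3, []),
  (0, [⟨[11], 1, 1, [1], [1, -2, -1, 1]⟩, ⟨[39, 5], 1, 2, [22, 24], []⟩, ⟨[11, 25], 1, 2, [24, 3], []⟩])] (by decide +kernel)

theorem ra {F : Type*} [Field F] [NumberField F] {α : NumberField.RingOfIntegers F} (h : Gen α fl) :
    Range F 10 41 0 42 :=
  have hs : splitOK fl m 3 ρ = true := by decide +kernel
  a0.range h hs

open NumberField IsDedekindDomain

variable {F : Type*} [Field F] [NumberField F] {α : 𝓞 F}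

theorem c2 (h : Gen α fl) : Cnt F 2 2 :=
  h.cnt (m := m) (r := 3) (ρ := ρ) Nat.prime_two (l := [(⟨[0], 1, 1, [1], [2, 1]⟩, 1), (⟨[1, 1], 2, 2, [1], [1, 1, 1]⟩, 1)]) (by decide +kernel)

theorem c5 (h : Gen α fl) : Cnt F 5 1 :=
  h.cnt (m := m) (r := 3) (ρ := ρ) Nat.prime_five (l := [(⟨[4], 5, 1, [1], [1, 1]⟩, 1)]) (by decide +kernel)

/-- The generators. -/
def g : Fin 6 → List ℤ := ![[-1],
  [0, 1],
  [2],
  [1, 1],
  [-1, 1, 1],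
  [1, -1, 0, 1]]

theorem SU (h : Gen α fl) {ξ : F} (h0 : ξ ≠ 0)
    (hξ : ∀ v : HeightOneSpectrum (𝓞 F), ((10 : ℕ) : 𝓞 F) ∉ v.asIdeal →
      ∃ k : ℤ, v.valuation F ξ = WithZero.exp (2 * k)) :
    ∃ (e : Fin 6 → Bool) (u : F), ξ = (∏ i, if e i then ev (α : F) (g i) else 1) * u ^ 2 :=
  h.SU (M := 41) (m := m) (r := 3) (ρ := ρ) (D := 450000) (dF := 450000)
    (bs := [([1], 1, [-1, 5, -10, 10, -5]), ([0, 1], 1, [-4, 5, 0, -5, 0]), ([0, 0, 1], 1, [-16, 25, -50, 35, -10]), ([0, 0, 0, 1], 1, [-64, -115, -240, -50, 0]), ([0, 0, 0, 0, 1], 1, [-256, -975, -1070, 275, -30])])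
    (K := 10000000000000000000000000000000000000000) (E := 3132279765259979404785497065308481241112) (zs := [⟨6395963072390676720626344577020442604199, 5068135122464188792226875238900212398047⟩, ⟨6395963072390676720626344577020442604199, -5068135122464188792226875238900212398047⟩, ⟨-16744848714307995826212700104570162900165, 3132279765259979404785497065308481241112⟩, ⟨-16744848714307995826212700104570162900165, -3132279765259979404785497065308481241112⟩]) (T := 41)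
    (c := ![(599, 18), (617, 542), (1741, 679), (673, 667), (281, 276), (137, 100)]) (by decide +kernel)
    ((c2 h).mul (c5 h)) (ra h) h0 hξ

instance : Fact (Irreducible (mq fl)) :=
  ⟨irr_of_deg (D := 5) (D' := 5) Nat.prime_eleven Nat.prime_eleven (l := [⟨[4, 6, 0, 5, 0], 1, 5, [8, 3, 6, 0, 4], []⟩])
    (l' := [⟨[4, 6, 0, 5, 0], 1, 5, [8, 3, 6, 0, 4], []⟩]) (by decide +kernel)⟩

theorem re0 (h : Gen α fl) : ∃ φ : F →+* ℝ, ((2069777128383463821117271105509 : ℤ) : ℝ) / ((10 ^ 30 : ℕ) : ℝ) < φ α ∧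
    φ α < ((2069777128383463821117271105510 : ℤ) : ℝ) / ((10 ^ 30 : ℕ) : ℝ) := h.real (by decide +kernel)


end Pool.Agent.Lib.MP_ab8df0_nt.A.Q5b
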